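import Pool.Agent.Q74.BH.Stm
import Pool.Agent.Q176.SF.Prod

/-! # Project BH, JOB FreeA: in every interval of `H` integers the trajectories of `k` random points are independent
and do not meet up to the time `(1 - κ) cI log H` -/

set_option autoImplicit false

namespace Pool.Agent.Q190.BH.FreeA

open Finset
open Pool.Agent.Q74.KP
open Pool.Agent.Q74.SF
open Pool.Agent.Q74.BH
open Pool.Agent.Q74.AR (oc)
open Pool.Agent.Q158.Col4 (cI)
open Pool.Agent.Q158.Pair (T)

theorem sum_Ico_int (f : ℤ → ℝ) (a : ℤ) (H : ℕ) :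
    ∑ x ∈ Ico a (a + (H : ℤ)), f x = ∑ h : Fin H, f (a + ((h : ℕ) : ℤ)) := by
  rw [Fin.sum_univ_eq_sum_range (fun h : ℕ => f (a + (h : ℤ))) H]
  symm
  refine sum_nbij' (fun h : ℕ => a + (h : ℤ)) (fun x : ℤ => (x - a).toNat) ?_ ?_ ?_ ?_ ?_
  · intro h hh
    have hh := mem_range.1 hh
    rw [mem_Ico]
    omega
  · intro x hx
    have hx := mem_Ico.1 hx
    rw [mem_range]
    omega
  · intro h hh
    simp
  · intro x hx
    have hx := mem_Ico.1 hx
    have : ((x - a).toNat : ℤ) = x - a := Int.toNat_of_nonneg (by omega)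
    show a + ((x - a).toNat : ℤ) = x
    rw [this]
    ring
  · intro h hh
    rfl

/-- the number of `h` with a coincidence at two given indices -/
theorem pair_count {k H : ℕ} (val : Fin H → ℤ) {β : ℝ}
    (hβ : ∀ y, (∑ x : Fin H, if val x = val y then (1 : ℝ) else 0) ≤ β * H) (i j : Fin k) (hij : i ≠ j) :
    (∑ h : Fin k → Fin H, if val (h i) = val (h j) then (1 : ℝ) else 0) ≤ β * (H : ℝ) ^ k := by
  classical
  have hc : ((H : ℝ)) * (Fintype.card ({l // l ≠ i} → Fin H) : ℝ) = (H : ℝ) ^ k := by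
    have h1 := Fintype.card_congr (Equiv.funSplitAt i (Fin H))
    rw [Fintype.card_fun, Fintype.card_fin, Fintype.card_fin, Fintype.card_prod, Fintype.card_fin] at h1
    have h2 : ((H ^ k : ℕ) : ℝ) = ((H * Fintype.card ({l // l ≠ i} → Fin H) : ℕ) : ℝ) := by rw [h1]
    push_cast at h2
    rw [h2, Fintype.card_fun]
    try push_cast
    try rfl
  rw [← (Equiv.funSplitAt i (Fin H)).symm.sum_comp, Fintype.sum_prod_type_right]
  have h2 : ∀ g : {l // l ≠ i} → Fin H, (∑ x : Fin H,
      if val ((Equiv.funSplitAt i (Fin H)).symm (x, g) i) = val ((Equiv.funSplitAt i (Fin H)).symm (x, g) j)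
        then (1 : ℝ) else 0) ≤ β * H := by
    intro g
    refine le_trans (le_of_eq ?_) (hβ (g ⟨j, hij.symm⟩))
    apply sum_congr rfl
    intro x _
    have e1 : (Equiv.funSplitAt i (Fin H)).symm (x, g) i = x := by
      simp [Equiv.funSplitAt, Equiv.piSplitAt]
    have e2 : (Equiv.funSplitAt i (Fin H)).symm (x, g) j = g ⟨j, hij.symm⟩ := by
      simp [Equiv.funSplitAt, Equiv.piSplitAt, hij.symm]
    rw [e1, e2]
  refine (sum_le_sum fun g _ => h2 g).trans (le_of_eq ?_)
  rw [sum_const, card_univ, nsmul_eq_mul, ← hc]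
  ring

theorem noninj_count {k H : ℕ} (val : Fin H → ℤ) {β : ℝ} (hβ0 : 0 ≤ β)
    (hβ : ∀ y, (∑ x : Fin H, if val x = val y then (1 : ℝ) else 0) ≤ β * H) [∀ h : Fin k → Fin H, Decidable (Function.Injective fun i => val (h i))] :
    (∑ h : Fin k → Fin H, if Function.Injective (fun i => val (h i)) then (0 : ℝ) else 1) ≤
      (k : ℝ) ^ 2 * β * (H : ℝ) ^ k := by
  classical
  have h1 : ∀ h : Fin k → Fin H, (if Function.Injective (fun i => val (h i)) then (0 : ℝ) else 1) ≤
      ∑ i : Fin k, ∑ j : Fin k, if i ≠ j ∧ val (h i) = val (h j) then (1 : ℝ) else 0 := by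
    intro h
    split_ifs with hi
    · apply sum_nonneg
      intro i _
      apply sum_nonneg
      intro j _
      split_ifs <;> norm_num
    · rw [Function.not_injective_iff] at hi
      obtain ⟨i, j, hij, hne⟩ := hi
      have h2 : (if i ≠ j ∧ val (h i) = val (h j) then (1 : ℝ) else 0) = 1 := if_pos ⟨hne, hij⟩
      refine h2.symm.le.trans (le_trans ?_ (single_le_sum (f := fun i => ∑ j : Fin k, if i ≠ j ∧ val (h i) = val (h j) then (1 : ℝ) else 0)
        (fun i _ => sum_nonneg fun j _ => by split_ifs <;> norm_num) (mem_univ i)))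
      exact single_le_sum (f := fun j => if i ≠ j ∧ val (h i) = val (h j) then (1 : ℝ) else 0)
        (fun j _ => by split_ifs <;> norm_num) (mem_univ j)
  refine (sum_le_sum fun h _ => h1 h).trans ?_
  rw [sum_comm]
  have h3 : ∀ i : Fin k, (∑ h : Fin k → Fin H, ∑ j : Fin k, if i ≠ j ∧ val (h i) = val (h j) then (1 : ℝ) else 0) ≤
      k * (β * (H : ℝ) ^ k) := by
    intro i
    rw [sum_comm]
    have h4 : ∀ j : Fin k, (∑ h : Fin k → Fin H, if i ≠ j ∧ val (h i) = val (h j) then (1 : ℝ) else 0) ≤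
        β * (H : ℝ) ^ k := by
      intro j
      by_cases hij : i ≠ j
      · have := pair_count val hβ i j hij
        refine le_trans (le_of_eq ?_) this
        apply sum_congr rfl
        intro h _
        simp [hij]
      · have : ∀ h : Fin k → Fin H, (if i ≠ j ∧ val (h i) = val (h j) then (1 : ℝ) else 0) = 0 := by
          intro h
          rw [if_neg (fun hh => hij hh.1)]
        rw [sum_congr rfl (fun h _ => this h), sum_const_zero]
        positivity
    refine (sum_le_sum fun j _ => h4 j).trans (le_of_eq ?_)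
    rw [sum_const, card_univ, Fintype.card_fin, nsmul_eq_mul]
  refine (sum_le_sum fun i _ => h3 i).trans (le_of_eq ?_)
  rw [sum_const, card_univ, Fintype.card_fin, nsmul_eq_mul]
  ring

theorem freeA (hT : S_TV) (_hP : S_ProdK) (hM : S_Mass) (hL : S_Ln) (_hB : S_Binom) : S_FreeA := by
  classical
  intro k κ ε hκ hε
  obtain ⟨hlo, hhi⟩ := Pool.Agent.Q158.Col4.log43_bounds
  have hcI0 : 0 < cI := by
    unfold Pool.Agent.Q158.Col4.cI
    positivity
  have hcI6 : 6 ≤ cI := by
    unfold Pool.Agent.Q158.Col4.cI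
    rw [le_div_iff₀ (by positivity)]
    linarith
  set η : ℝ := min (κ * cI) 1 with hη
  have hη0 : 0 < η := lt_min (by positivity) one_pos
  have hη1 : η ≤ 1 := min_le_right _ _
  have hηκ : η ≤ κ * cI := min_le_left _ _
  set β : ℝ := ε / (6 * ((k : ℝ) ^ 2 + 1)) with hβ
  have hβ0 : 0 < β := by positivity
  set K : ℝ := √(1 / β) with hK
  have hK0 : 0 < K := Real.sqrt_pos.2 (by positivity)
  have hK2 : 1 / K ^ 2 = β := by
    rw [hK, Real.sq_sqrt (by positivity), one_div_one_div]
  obtain ⟨H₁, hH₁2, hH₁⟩ := Pool.Agent.Q176.SF.Prod.law1 (η := η) (ε := ε / (2 * ((k : ℝ) + 1))) hη0 (by positivity)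
  obtain ⟨H₂, hH₂⟩ := hT η β K hη0 hβ0 hK0
  obtain ⟨H₃, hH₃⟩ := hL η K β hη0 hK0 hβ0
  refine ⟨max (max H₁ H₂) (max H₃ 3), fun H hH t ht a F hF => ?_⟩
  have g1 : H₁ ≤ H := le_trans (le_trans (le_max_left _ _) (le_max_left _ _)) hH
  have g2 : H₂ ≤ H := le_trans (le_trans (le_max_right _ _) (le_max_left _ _)) hH
  have g3 : H₃ ≤ H := le_trans (le_trans (le_max_left _ _) (le_max_right _ _)) hH
  have g4 : 3 ≤ H := le_trans (le_trans (le_max_right _ _) (le_max_right _ _)) hH
  have hHp : (0 : ℝ) < H := by exact_mod_cast (by omega : 0 < H)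
  have hlogH : 1 ≤ Real.log H := by
    rw [Real.le_log_iff_exp_le hHp]
    have h3 : (3 : ℝ) ≤ H := by exact_mod_cast g4
    have := Real.exp_one_lt_d9
    linarith
  have ht' : (t : ℝ) ≤ (cI - η) * Real.log H := by
    refine ht.trans ?_
    have h1 : (1 - κ) * (cI * Real.log H) = (cI - κ * cI) * Real.log H := by ring
    rw [h1]
    apply mul_le_mul_of_nonneg_right _ (by linarith)
    linarith
  -- the levels
  have h1 := Pool.Agent.Q176.SF.Prod.pts H t (by omega) (ε / (2 * ((k : ℝ) + 1)))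
    (fun a F hF => hH₁ H g1 a t ht' F hF) a k F hF
  have h1' : (k : ℝ) * (ε / (2 * ((k : ℝ) + 1))) ≤ ε / 2 := by
    rw [mul_div_assoc', div_le_div_iff₀ (by positivity) (by norm_num)]
    have : (0 : ℝ) ≤ k := Nat.cast_nonneg _
    nlinarith
  -- the time
  set m : ℕ := max t ⌈Real.log H⌉₊ with hm
  have hm1 : Real.log H ≤ m := by
    refine (Nat.le_ceil _).trans ?_
    exact_mod_cast le_max_right _ _
  have hm2 : (m : ℝ) ≤ (cI - η) * Real.log H := by
    rw [hm, Nat.cast_max]
    apply max_le ht'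
    have h2 : ((⌈Real.log H⌉₊ : ℕ) : ℝ) < Real.log H + 1 := Nat.ceil_lt_add_one (by linarith)
    nlinarith
  obtain ⟨μ, hμ, hTV⟩ := hH₂ H g2 m hm1 hm2
  set val : Fin H → ℤ := fun x => T^[t] (a + ((x : ℕ) : ℤ)) with hval
  -- the multiplicities
  have hmult : ∀ y, (∑ x : Fin H, if val x = val y then (1 : ℝ) else 0) ≤ (3 * β) * H := by
    intro y
    have h2 := hTV a (fun _ z => if z = T^[m] (a + ((y : ℕ) : ℤ)) then 1 else 0) (fun o z => by
      split_ifs <;> norm_num)
    rw [hK2, sum_Ico_int (fun x => if T^[m] x = T^[m] (a + ((y : ℕ) : ℤ)) then 1 else 0) a H] at h2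
    have h3 : (∑ o ∈ Typ K m, ∑ z ∈ Jw m o H a, den m μ H o z *
        (if z = T^[m] (a + ((y : ℕ) : ℤ)) then (1 : ℝ) else 0)) ≤ β := by
      have h4 : ∀ o ∈ Typ K m, (∑ z ∈ Jw m o H a, den m μ H o z *
          (if z = T^[m] (a + ((y : ℕ) : ℤ)) then (1 : ℝ) else 0)) ≤ (m.choose o : ℝ) / 2 ^ m * β := by
        intro o ho
        obtain ⟨h5, _⟩ := hH₃ H g3 m hm1 hm2 μ hμ o ho
        obtain ⟨h6, _, _⟩ := hM m μ H o a (by omega)
        have hln : 0 < Pool.Agent.Q74.BH.ln m o H := by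
          unfold Pool.Agent.Q74.BH.ln
          positivity
        have h7 : (3 : ℝ) ^ μ / Pool.Agent.Q74.BH.ln m o H ≤ β := by
          rw [div_le_iff₀ hln]
          exact h5
        have h8 : (m.choose o : ℝ) / 2 ^ m * (3 ^ μ / Pool.Agent.Q74.BH.ln m o H) ≤ (m.choose o : ℝ) / 2 ^ m * β :=
          mul_le_mul_of_nonneg_left h7 (by positivity)
        simp only [mul_ite, mul_one, mul_zero]
        rw [sum_ite_eq']
        split_ifs
        · exact (h6 _).2.trans h8
        · positivity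
      refine (sum_le_sum h4).trans ?_
      rw [← sum_mul]
      have h9 : ∑ o ∈ Typ K m, (m.choose o : ℝ) / 2 ^ m ≤ 1 := by
        have h10 : ∑ o ∈ Typ K m, (m.choose o : ℝ) / 2 ^ m ≤ ∑ o ∈ range (m + 1), (m.choose o : ℝ) / 2 ^ m := by
          apply sum_le_sum_of_subset_of_nonneg
          · unfold Typ
            exact filter_subset _ _
          · intro i _ _
            positivity
        refine h10.trans (le_of_eq ?_)
        rw [← sum_div]
        have h11 : (∑ o ∈ range (m + 1), (m.choose o : ℝ)) = 2 ^ m := by exact_mod_cast Nat.sum_range_choose m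
        rw [h11, div_self (by positivity)]
      calc (∑ o ∈ Typ K m, (m.choose o : ℝ) / 2 ^ m) * β ≤ 1 * β := mul_le_mul_of_nonneg_right h9 hβ0.le
        _ = β := one_mul _
    have h4 : (∑ h : Fin H, if T^[m] (a + ((h : ℕ) : ℤ)) = T^[m] (a + ((y : ℕ) : ℤ)) then (1 : ℝ) else 0) ≤
        3 * β * H := by
      have h5 := (abs_le.1 h2).2
      have h6 : (∑ h : Fin H, if T^[m] (a + ((h : ℕ) : ℤ)) = T^[m] (a + ((y : ℕ) : ℤ)) then (1 : ℝ) else 0) / H ≤
          3 * β := by linarith
      rwa [div_le_iff₀ hHp] at h6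
    refine le_trans ?_ h4
    apply sum_le_sum
    intro x _
    by_cases hxy : val x = val y
    · have h5 : T^[m] (a + ((x : ℕ) : ℤ)) = T^[m] (a + ((y : ℕ) : ℤ)) := by
        obtain ⟨d, hd⟩ : ∃ d, m = d + t := ⟨m - t, by have := le_max_left t ⌈Real.log H⌉₊; omega⟩
        rw [hd, Function.iterate_add_apply, Function.iterate_add_apply]
        exact congrArg (T^[d]) hxy
      rw [if_pos hxy, if_pos h5]
    · rw [if_neg hxy]
      split_ifs <;> norm_num
  have h2 := noninj_count (k := k) val (β := 3 * β) (by positivity) hmult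
  -- the difference
  have hHk : (0 : ℝ) < (H : ℝ) ^ k := by positivity
  have h3 : |(∑ h : Fin k → Fin H, if Function.Injective (fun i => (V0 t a h i).2) then
        F (fun i => (V0 t a h i).1) else 0) / (H : ℝ) ^ k -
      (∑ h : Fin k → Fin H, F (fun i => (oc t (a + (h i : ℕ)) : ℤ))) / (H : ℝ) ^ k| ≤ ε / 2 := by
    rw [← sub_div, ← sum_sub_distrib, abs_div, abs_of_pos hHk, div_le_iff₀ hHk]
    refine (abs_sum_le_sum_abs _ _).trans ?_
    have h4 : ∀ h : Fin k → Fin H, |(if Function.Injective (fun i => (V0 t a h i).2) then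
        F (fun i => (V0 t a h i).1) else 0) - F (fun i => (oc t (a + (h i : ℕ)) : ℤ))| ≤
        if Function.Injective (fun i => val (h i)) then (0 : ℝ) else 1 := by
      intro h
      have e1 : (fun i => (V0 t a h i).2) = fun i => val (h i) := rfl
      have e2 : (fun i => (V0 t a h i).1) = fun i => (oc t (a + (h i : ℕ)) : ℤ) := rfl
      rw [e1, e2]
      by_cases hi : Function.Injective (fun i => val (h i))
      · rw [if_pos hi, if_pos hi, sub_self, abs_zero]
      · rw [if_neg hi, if_neg hi, zero_sub, abs_neg]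
        exact hF _
    refine (sum_le_sum fun h _ => h4 h).trans ?_
    refine h2.trans ?_
    apply mul_le_mul_of_nonneg_right _ hHk.le
    rw [hβ]
    have hk2 : (0 : ℝ) ≤ (k : ℝ) ^ 2 := by positivity
    have : (k : ℝ) ^ 2 * (3 * (ε / (6 * ((k : ℝ) ^ 2 + 1)))) = (k : ℝ) ^ 2 * ε / (2 * ((k : ℝ) ^ 2 + 1)) := by
      field_simp
      ring
    rw [this, div_le_div_iff₀ (by positivity) (by norm_num)]
    nlinarith
  have h4 := abs_sub_le ((∑ h : Fin k → Fin H, if Function.Injective (fun i => (V0 t a h i).2) then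
        F (fun i => (V0 t a h i).1) else 0) / (H : ℝ) ^ k)
      ((∑ h : Fin k → Fin H, F (fun i => (oc t (a + (h i : ℕ)) : ℤ))) / (H : ℝ) ^ k) (act k (PP k ^ t) F 0)
  refine h4.trans ?_
  linarith

end Pool.Agent.Q190.BH.FreeA
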