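import Pool.Agent.Q74.BH.Stm
import Pool.Agent.Q177.SF.Comp
import Pool.Agent.Q176.SF.Prod
import Pool.Agent.Q210.SF.CInj

/-! # Project BH, JOB Merge: many coalescing walkers are all together with a probability which decays slowly -/

set_option autoImplicit false

namespace Pool.Agent.Q190.BH.Merge

open Finset
open Pool.Agent.Q74.KP
open Pool.Agent.Q74.SF
open Pool.Agent.Q74.BH
open Pool.Agent.Q74.AR (bE bE_mono bE_mul bE_add bE_const bE_sq Phi Phi_mono lim)

variable {k : ℕ}

/-- the weak order of the places is preserved -/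
def Pres (a z : Fin k → ℤ) : Prop := ∀ i j, a i ≤ a j → z i ≤ z j

theorem pres_step (a : Fin k → ℤ) (B : Finset ℤ) : Pres a (fun i => a i + if a i ∈ B then 1 else 0) := by
  intro i j h
  rcases h.eq_or_lt with h | h
  · simp only [h]
    exact le_refl _
  · show a i + (if a i ∈ B then 1 else 0) ≤ a j + (if a j ∈ B then 1 else 0)
    split_ifs <;> omega

theorem cpres {F G : (Fin k → ℤ) → ℝ} (t : ℕ) : ∀ a : Fin k → ℤ, (∀ z, Pres a z → F z ≤ G z) →
    CG F t a ≤ CG G t a := by
  induction t with
  | zero => intro a h; exact h a (fun i j h => h)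
  | succ t ih =>
    intro a h
    rw [CG_succ, CG_succ]
    apply div_le_div_of_nonneg_right _ (by positivity)
    apply sum_le_sum
    intro B _
    apply ih
    intro z hz
    exact h z (fun i j hij => hz i j (pres_step a B i j hij))

theorem merge_ge (r : ℕ) (a : Fin (k + 1) → ℤ) (lo hi : ℤ) (h : ∀ i, lo ≤ a i ∧ a i ≤ hi) :
    1 - pq r (hi - lo) ≤ CG (fun z : Fin (k + 1) → ℤ => pat (fun _ => 0) z) r a := by
  classical
  set b : Fin (k + 3) → ℤ := Fin.cons lo (Fin.cons hi a) with hb
  set e : Fin (k + 1) → Fin (k + 3) := fun i => i.succ.succ with he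
  set e2 : Fin 2 → Fin (k + 3) := ![0, 1] with he2
  have hbe : b ∘ e = a := by
    funext i
    simp [hb, he]
  have hb2 : b ∘ e2 = ![lo, hi] := by
    funext i
    fin_cases i
    · simp [hb, he2]
    · simp only [hb, he2, Function.comp]
      rfl
  have h1 := Pool.Agent.Q177.SF.comp (k + 3) (k + 1) e (fun z : Fin (k + 1) → ℤ => pat (fun _ => 0) z) r b
  have h2 := Pool.Agent.Q177.SF.comp (k + 3) 2 e2
    (fun w : Fin 2 → ℤ => 1 - if Function.Injective w then (1 : ℝ) else 0) r b
  have h3 : CG (fun z : Fin (k + 3) → ℤ => 1 - if Function.Injective (z ∘ e2) then (1 : ℝ) else 0) r b ≤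
      CG (fun z : Fin (k + 3) → ℤ => pat (fun _ : Fin (k + 1) => (0 : Fin (k + 1))) (z ∘ e)) r b := by
    apply cpres
    intro z hz
    by_cases hi2 : Function.Injective (z ∘ e2)
    · rw [if_pos hi2, sub_self]
      exact pat_nonneg _ _
    · rw [if_neg hi2, sub_zero]
      have h01 : z 0 = z 1 := by
        by_contra hne
        apply hi2
        intro i j hij
        fin_cases i <;> fin_cases j
        · rfl
        · exact absurd hij hne
        · exact absurd hij.symm hne
        · rfl
      have hall : ∀ i, z (e i) = z 0 := by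
        intro i
        have hl : z 0 ≤ z (e i) := hz 0 (e i) (by
          have : b (e i) = a i := congrFun hbe i
          rw [this]
          exact (h i).1)
        have hr : z (e i) ≤ z 1 := hz (e i) 1 (by
          have : b (e i) = a i := congrFun hbe i
          rw [this]
          have : b 1 = hi := rfl
          rw [this]
          exact (h i).2)
        omega
      unfold pat
      rw [if_pos]
      intro i j
      simp only [Function.comp, hall]
  rw [h1, h2, hbe, hb2] at h3
  refine le_trans ?_ h3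
  rw [CG_sub (fun _ => 1) (fun w : Fin 2 → ℤ => if Function.Injective w then (1 : ℝ) else 0), CG_const]
  have h4 := Pool.Agent.Q210.SF.cinj 2 (fun _ => 1) r ![lo, hi]
  rw [h4]
  have h5 := NG_le_pq (k := 2) (i := 0) (j := 1) (by decide) r ![lo, hi]
  have h6 : (![lo, hi] : Fin 2 → ℤ) 1 - (![lo, hi] : Fin 2 → ℤ) 0 = hi - lo := rfl
  rw [h6] at h5
  linarith

theorem act_prod_fn (m : ℕ) (f : ℤ → ℝ) : ∀ k : ℕ,
    act k (PP k ^ m) (fun z => ∏ i, f (z i)) 0 = (bE m (fun x => f x)) ^ k := by
  intro k
  induction k with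
  | zero =>
    have : PP 0 = 1 := by
      unfold PP
      rw [univ_eq_empty, prod_empty]
    rw [this, one_pow, act_one, pow_zero]
    simp
  | succ k ih =>
    have e0 : (0 : Fin (k + 1) → ℤ) = Fin.cons 0 0 := by
      funext i
      refine Fin.cases ?_ (fun j => ?_) i
      · simp
      · simp
    rw [e0, Pool.Agent.Q176.SF.Prod.act_cons]
    have e1 : (fun y : ℕ => act k (PP k ^ m) (fun z => ∏ i, f ((Fin.cons (0 + (y : ℤ)) z : Fin (k + 1) → ℤ) i)) 0) =
        fun y : ℕ => (bE m (fun x => f x)) ^ k * f y := by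
      funext y
      have e2 : (fun z : Fin k → ℤ => ∏ i, f ((Fin.cons (0 + (y : ℤ)) z : Fin (k + 1) → ℤ) i)) =
          fun z => f y * ∏ i, f (z i) := by
        funext z
        rw [Fin.prod_univ_succ]
        simp
      rw [e2, act_scale, ih]
      ring
    rw [e1, bE_mul, pow_succ]

theorem Phi_lt_one (x : ℝ) : Phi x < 1 := by
  have h1 : Phi x = (ProbabilityTheory.gaussianReal 0 1).real (Set.Iic x) := Pool.Agent.Q74.AR.Phi_eq x
  have h2 : (ProbabilityTheory.gaussianReal 0 1).real (Set.Iic x) + (ProbabilityTheory.gaussianReal 0 1).real (Set.Ioi x) = 1 := by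
    have := MeasureTheory.measureReal_add_measureReal_compl (μ := ProbabilityTheory.gaussianReal 0 1)
      (s := Set.Iic x) measurableSet_Iic
    rw [Set.compl_Iic, MeasureTheory.probReal_univ] at this
    exact this
  have h3 : 0 < (ProbabilityTheory.gaussianReal 0 1).real (Set.Ioi x) := by
    rw [MeasureTheory.measureReal_def, ENNReal.toReal_pos_iff]
    refine ⟨?_, MeasureTheory.measure_lt_top _ _⟩
    rw [pos_iff_ne_zero]
    intro h0
    have h4 := ProbabilityTheory.gaussianReal_absolutelyContinuous' 0 (v := 1) one_ne_zero h0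
    rw [Real.volume_Ioi] at h4
    exact absurd h4 (by simp)
  linarith

theorem merge : S_Merge := by
  classical
  intro κ η hκ hη hη1
  set M : ℝ := √(2 / (κ * η)) with hM
  set q0 : ℝ := 1 - Phi M with hq0
  have hq0p : 0 < q0 := by
    have := Phi_lt_one M
    rw [hq0]
    linarith
  obtain ⟨r₀, hr₀⟩ := pq_close hq0p
  refine ⟨q0 * (1 - η), mul_pos hq0p (by linarith), ⌈((r₀ : ℝ) + 1) * (1 + κ) / κ⌉₊ + 1, ?_⟩
  intro m r hmr hr k
  have hmr' : ((r₀ : ℝ) + 1) * (1 + κ) / κ ≤ m + r := by
    refine (Nat.le_ceil _).trans ?_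
    have : ((⌈((r₀ : ℝ) + 1) * (1 + κ) / κ⌉₊ + 1 : ℕ) : ℝ) ≤ ((m + r : ℕ) : ℝ) := by exact_mod_cast hmr
    push_cast at this
    linarith
  have hr1 : (r₀ : ℝ) + 1 ≤ r := by
    rw [div_le_iff₀ hκ] at hmr'
    nlinarith
  have hr2 : r₀ ≤ r := by
    have : (r₀ : ℝ) ≤ r := by linarith
    exact_mod_cast this
  have hrp : (0 : ℝ) < r := by
    have : (0 : ℝ) ≤ r₀ := Nat.cast_nonneg _
    linarith
  -- the window
  set D : ℝ := √((m : ℝ) / (4 * η)) with hD
  have hD0 : 0 ≤ D := Real.sqrt_nonneg _
  have hD2 : D ^ 2 = (m : ℝ) / (4 * η) := Real.sq_sqrt (by positivity)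
  set lo : ℤ := ⌈(m : ℝ) / 2 - D⌉ with hlo
  set hi : ℤ := ⌊(m : ℝ) / 2 + D⌋ with hhi
  set f : ℤ → ℝ := fun x => if |(x : ℝ) - m / 2| ≤ D then 1 else 0 with hf
  -- Chebyshev
  have hch : 1 - η ≤ bE m (fun x : ℕ => f x) := by
    rcases Nat.eq_zero_or_pos m with hm0 | hmp
    · subst hm0
      rw [Pool.Agent.Q74.AR.bE_zero]
      have : f ((0 : ℕ) : ℤ) = 1 := by
        simp only [hf]
        rw [if_pos]
        simp [hD0]
      rw [this]
      linarith
    · have hmr : (0 : ℝ) < m := by exact_mod_cast hmp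
      have hDp : 0 < D ^ 2 := by rw [hD2]; positivity
      have h1 : bE m (fun x : ℕ => (-(1 / D ^ 2)) * ((x : ℝ) - m / 2) ^ 2 + 1) ≤ bE m (fun x : ℕ => f x) := by
        apply bE_mono
        intro x
        simp only [hf]
        split_ifs with h
        · have : 0 ≤ 1 / D ^ 2 * ((x : ℝ) - m / 2) ^ 2 := by positivity
          linarith
        · push Not at h
          have h2 : D ^ 2 ≤ ((x : ℝ) - m / 2) ^ 2 := by
            rw [← sq_abs ((x : ℝ) - m / 2)]
            have h3 : D ≤ |(x : ℝ) - m / 2| := by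
              have := h.le
              push_cast at this
              exact this
            nlinarith
          have h3 : 1 ≤ 1 / D ^ 2 * ((x : ℝ) - m / 2) ^ 2 := by
            rw [div_mul_eq_mul_div, one_mul, le_div_iff₀ hDp, one_mul]
            exact h2
          linarith
      rw [bE_add m (fun x : ℕ => (-(1 / D ^ 2)) * ((x : ℝ) - m / 2) ^ 2) (fun _ => 1), bE_const, bE_mul, bE_sq,
        sub_self, hD2] at h1
      have h2 : -(1 / ((m : ℝ) / (4 * η))) * ((m : ℝ) / 4 + 0 ^ 2) + 1 = 1 - η := by
        field_simp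
        ring
      rw [h2] at h1
      exact h1
  -- the pair
  have hpair : pq r (hi - lo) ≤ 1 - q0 ∨ hi < lo := by
    rcases lt_or_ge hi lo with h | h
    · exact Or.inr h
    · left
      have h1 := (abs_le.1 (hr₀ r hr2 (hi - lo))).2
      have h2 : ((hi - lo).natAbs : ℝ) ≤ 2 * D := by
        have h3 : (((hi - lo).natAbs : ℤ) : ℝ) = ((hi - lo : ℤ) : ℝ) := by
          congr 1
          omega
        rw [Int.cast_natCast] at h3
        rw [h3]
        push_cast
        have h4 : (hi : ℝ) ≤ m / 2 + D := Int.floor_le _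
        have h5 : (m : ℝ) / 2 - D ≤ lo := Int.le_ceil _
        linarith
      have h3 : ((hi - lo).natAbs : ℝ) / √((r : ℝ) / 2) ≤ M := by
        have hs : 0 < √((r : ℝ) / 2) := Real.sqrt_pos.2 (by linarith)
        rw [div_le_iff₀ hs]
        refine h2.trans ?_
        rw [hM, ← Real.sqrt_mul (by positivity)]
        apply Real.le_sqrt_of_sq_le
        rw [mul_pow, hD2]
        have e1 : (2 : ℝ) ^ 2 * ((m : ℝ) / (4 * η)) = m / η := by
          field_simp
          ring
        have e2 : 2 / (κ * η) * ((r : ℝ) / 2) = r / κ / η := by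
          field_simp
        rw [e1, e2]
        apply div_le_div_of_nonneg_right _ hη.le
        rw [le_div_iff₀ hκ]
        linarith
      have h4 : lim r (hi - lo).natAbs ≤ 2 * Phi M - 1 := by
        unfold Pool.Agent.Q74.AR.lim
        have := Phi_mono h3
        linarith
      have h5 : Phi M = 1 - q0 := by rw [hq0]; ring
      rw [h5] at h4
      linarith
  have hnot : ¬ hi < lo := by
    intro hlt
    -- then the window is empty, but it has positive probability
    have h0 : bE m (fun x : ℕ => f x) ≤ bE m (fun _ => 0) := by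
      apply bE_mono
      intro x
      simp only [hf]
      split_ifs with h
      · exfalso
        have h' := abs_le.1 h
        have h1 : lo ≤ (x : ℤ) := by
          rw [hlo, Int.ceil_le]
          linarith [h'.1]
        have h2 : (x : ℤ) ≤ hi := by
          rw [hhi, Int.le_floor]
          linarith [h'.2]
        omega
      · exact le_refl _
    rw [bE_const] at h0
    linarith
  have hpq : pq r (hi - lo) ≤ 1 - q0 := hpair.resolve_right hnot
  -- comparison
  have hcmp : act (k + 1) (PP (k + 1) ^ m) (fun z : Fin (k + 1) → ℤ => q0 * ∏ i, f (z i)) 0 ≤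
      act (k + 1) (PP (k + 1) ^ m) (CG (fun z : Fin (k + 1) → ℤ => pat (fun _ => 0) z) r) 0 := by
    apply act_mono
    intro a
    by_cases h : ∀ i, |(a i : ℝ) - m / 2| ≤ D
    · have e1 : ∏ i, f (a i) = 1 := by
        apply prod_eq_one
        intro i _
        simp only [hf]
        rw [if_pos (h i)]
      rw [e1, mul_one]
      have h1 := merge_ge r a lo hi (fun i => by
        have h' := abs_le.1 (h i)
        constructor
        · rw [hlo, Int.ceil_le]
          linarith [h'.1]
        · rw [hhi, Int.le_floor]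
          linarith [h'.2])
      linarith
    · push Not at h
      obtain ⟨i, hi'⟩ := h
      have e1 : ∏ i, f (a i) = 0 := by
        apply prod_eq_zero (mem_univ i)
        simp only [hf]
        rw [if_neg (not_le.2 hi')]
      rw [e1, mul_zero]
      have := CG_mono (F := fun _ : Fin (k + 1) → ℤ => (0 : ℝ)) (G := fun z => pat (fun _ => 0) z)
        (fun z => pat_nonneg _ _) r a
      rwa [CG_const] at this
  rw [act_scale, act_prod_fn] at hcmp
  refine le_trans ?_ hcmp
  have h1 : (1 - η) ^ (k + 1) ≤ bE m (fun x : ℕ => f x) ^ (k + 1) :=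
    pow_le_pow_left₀ (by linarith) hch _
  calc q0 * (1 - η) * (1 - η) ^ k = q0 * (1 - η) ^ (k + 1) := by ring
    _ ≤ q0 * bE m (fun x : ℕ => f x) ^ (k + 1) := mul_le_mul_of_nonneg_left h1 hq0p.le

end Pool.Agent.Q190.BH.Merge
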